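import Pool.Agent.H640.CA.App

set_option autoImplicit false

/-!
Turing determinacy implies automatic countable additivity on all Boolean algebras `B` in which
countable least upper bounds exist (for instance σ-algebras of sets): every exhaustive finitely
additive measure on `B` with values in a topological group is countably additive (in particular
every bounded real valued one), and every exhaustive submeasure, or more generally every exhaustive
quasi-additive map, is order continuous. (With the axiom of choice, ultrafilters and Banach limits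
are counterexamples.) Stated as an explicit reduction to the determinacy of Turing invariant sets.
-/

namespace Pool.Agent.Results.MP_917879_lc.CountableAdditivity

open Pool.Agent.H685R3 Filter Topology

/-- `x` and `y` have the same Turing degree (Mathlib's Turing reducibility, for characteristic
functions). -/
def SameDegree (x y : ℕ → Bool) : Prop :=
  TuringReducible (charFn x) (charFn y) ∧ TuringReducible (charFn y) (charFn x)

/-- The set of all `x` such that for some `x'` of the same Turing degree the set `V` contains
infinitely many members of the sequence `Ψ x'`. -/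
def Saturation (V : Set (ℕ → Bool)) (Ψ : (ℕ → Bool) → ℕ → ℕ → Bool) : Set (ℕ → Bool) :=
  {x | ∃ x', SameDegree x' x ∧ ∃ᶠ n in atTop, Ψ x' n ∈ V}

/-- Every sequence in the Boolean algebra has a least upper bound. -/
def SigmaComplete (B : Type*) [BooleanAlgebra B] : Prop :=
  ∀ a : ℕ → B, ∃ s, IsLUB (Set.range a) s

/-- The members of the sequence `a` are pairwise disjoint. -/
def DisjointSeq {B : Type*} [BooleanAlgebra B] (a : ℕ → B) : Prop :=
  ∀ m n, m ≠ n → Disjoint (a m) (a n)

/-- The set of all sets `x` of natural numbers such that for every `N` some element of the Boolean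
algebra outside of `W` is below all upper bounds of the `a n` with `n ≥ N` and `n ∈ x`. -/
def Large {B : Type*} [BooleanAlgebra B] (W : Set B) (a : ℕ → B) : Set (ℕ → Bool) :=
  {x | ∀ N, ∃ c ∉ W, ∀ u, (∀ n ≥ N, x n = true → a n ≤ u) → c ≤ u}

/-- For all neighbourhoods `V` of `z` and all sequences `a` the saturation of the set
`Large (φ ⁻¹' V) a` under the map `Φ σ` has the property `P`, for all `σ`. -/
def Attached (P : Set (ℕ → Bool) → Prop) (Φ : List Bool → (ℕ → Bool) → ℕ → ℕ → Bool)
    {B : Type*} [BooleanAlgebra B] {G : Type*} [TopologicalSpace G] (φ : B → G) (z : G) : Prop :=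
  ∀ V ∈ 𝓝 z, ∀ (a : ℕ → B) (σ : List Bool), P (Saturation (Large (φ ⁻¹' V) a) (Φ σ))

/-- If the values of `φ` at two disjoint elements are close to `z`, then so is the value at their
join. This holds for finitely additive maps to a topological group and for submeasures, `z = 0`. -/
def QuasiAdditive {B : Type*} [BooleanAlgebra B] {G : Type*} [TopologicalSpace G] (φ : B → G)
    (z : G) : Prop :=
  ∀ U ∈ 𝓝 z, ∃ V ∈ 𝓝 z, ∀ b c, Disjoint b c → φ b ∈ V → φ c ∈ V → φ (b ⊔ c) ∈ U

/-- The values of `φ` at the members of a sequence of pairwise disjoint elements tend to `z`. -/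
def Exhaustive {B : Type*} [BooleanAlgebra B] {G : Type*} [TopologicalSpace G] (φ : B → G)
    (z : G) : Prop :=
  ∀ a : ℕ → B, DisjointSeq a → Tendsto (fun n => φ (a n)) atTop (𝓝 z)

/-- For every decreasing sequence `b` with greatest lower bound `0` the values of `φ` at the elements
below `b n` tend to `z`, uniformly. -/
def OrderContinuous {B : Type*} [BooleanAlgebra B] {G : Type*} [TopologicalSpace G] (φ : B → G)
    (z : G) : Prop :=
  ∀ b : ℕ → B, Antitone b → IsGLB (Set.range b) ⊥ → ∀ U ∈ 𝓝 z, ∃ N, ∀ c ≤ b N, φ c ∈ U

/-- Finite additivity. -/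
def Additive {B : Type*} [BooleanAlgebra B] {G : Type*} [AddCommGroup G] (φ : B → G) : Prop :=
  ∀ b c, Disjoint b c → φ (b ⊔ c) = φ b + φ c

/-- Countable additivity. -/
def CountablyAdditive {B : Type*} [BooleanAlgebra B] {G : Type*} [AddCommGroup G]
    [TopologicalSpace G] (φ : B → G) : Prop :=
  ∀ (a : ℕ → B) (s : B), DisjointSeq a → IsLUB (Set.range a) s →
    HasSum (fun n => φ (a n)) (φ s)

/-- There are Borel maps `Φ σ` (one for every finite binary sequence `σ`) from the Cantor space to
sequences of points of the Cantor space such that for every Boolean algebra `B` in which all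
sequences have least upper bounds and every map `φ` from `B` to a topological space with a point `z`
the sets attached to `φ` are Turing invariant, and if all of them are determined and `φ` is
quasi-additive and exhaustive, then `φ` is order continuous; in particular, if the sets attached to
a finitely additive map `φ` from `B` to a commutative topological group are determined and `φ` is
exhaustive (or real valued and bounded), then `φ` is countably additive. -/
theorem result :
    ∃ Φ : List Bool → (ℕ → Bool) → ℕ → ℕ → Bool, (∀ σ, Measurable (Φ σ)) ∧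
      ∀ (B : Type*) [BooleanAlgebra B], SigmaComplete B →
        (∀ (G : Type*) [TopologicalSpace G] (φ : B → G) (z : G),
          Attached TuringInvariant Φ φ z ∧
          (Attached Determined Φ φ z → QuasiAdditive φ z → Exhaustive φ z →
            OrderContinuous φ z)) ∧
        (∀ (G : Type*) [AddCommGroup G] [TopologicalSpace G] [IsTopologicalAddGroup G] (φ : B → G),
          Attached Determined Φ φ 0 → Additive φ → Exhaustive φ 0 → CountablyAdditive φ) ∧
        (∀ φ : B → ℝ, Attached Determined Φ φ 0 → Additive φ → (∃ K, ∀ b, |φ b| ≤ K) →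
          CountablyAdditive φ) := by
  refine ⟨Pool.Agent.W885.TD.cc, Pool.Agent.W885.TD.measurable_cc, fun B _ hB => ?_⟩
  have key : ∀ (V : Set (ℕ → Bool)) (σ : List Bool), Saturation V (Pool.Agent.W885.TD.cc σ) =
      Pool.Agent.W885.TD.sat V (Pool.Agent.W885.TD.cc σ) := by
    intro V σ
    ext x
    exact ⟨fun ⟨x', h, h'⟩ => ⟨x', h.1, h.2, h'⟩, fun ⟨x', h1, h2, h'⟩ => ⟨x', ⟨h1, h2⟩, h'⟩⟩
  have hbaire : ∀ (W : Set B) (a : ℕ → B),
      (∀ σ, Determined (Saturation (Large W a) (Pool.Agent.W885.TD.cc σ))) →
      BaireMeasurableSet (Pool.Agent.H640.CA.Large W a) := by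
    intro W a hW
    refine Pool.Agent.W885.TD.baire_of_determined (Pool.Agent.H640.CA.up_large W a) fun σ => ?_
    have h := hW σ
    rw [key] at h
    exact h
  refine ⟨fun G _ φ z => ⟨fun V _ a σ => ?_, fun hf hq he => ?_⟩,
    fun G _ _ _ φ hf ha he => ?_, fun φ hf ha hb => ?_⟩
  · rw [key]
    exact Pool.Agent.W885.TD.sat_invariant _ _
  · intro b hb hb0 U hU
    exact Pool.Agent.H640.CA.order_continuous hB hq he
      (fun V hV a => hbaire _ _ fun σ => hf V hV a σ) hb hb0 hU
  · intro a s hd hs
    exact Pool.Agent.H640.CA.sigma_additive hB ha he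
      (fun V hV a => hbaire _ _ fun σ => hf V hV a σ) hd hs
  · intro a s hd hs
    obtain ⟨K, hK⟩ := hb
    exact Pool.Agent.H640.CA.sigma_additive hB ha (Pool.Agent.H640.CA.exhaustive_of_bounded ha hK)
      (fun V hV a => hbaire _ _ fun σ => hf V hV a σ) hd hs

end Pool.Agent.Results.MP_917879_lc.CountableAdditivity
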