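import Pool.Agent.H660.TM.Cl

/-!
# Games whose payoff is monotone in the Turing degrees of the moves of the players

Let `x` and `y` be the sequences of the moves of the players I and II. For payoff sets which depend
monotonically on the Turing degree of `x`, or on the Turing degree of `y`, exactly three kinds of
determinacy hypotheses occur.

1. If the payoff of player I is decreasing in the degree of his own moves, or increasing in the
   degree of the moves of the opponent, then the game is determined, provably.
2. The determinacy of the payoff sets which are increasing in the degree of `x` and decreasing in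
   the degree of `y` is Turing determinacy; and then these games with real numbers as moves are
   determined as well.
3. The determinacy of the payoff sets which are increasing in the degree of `x` (and depend on `y`
   in an arbitrary way), the determinacy of those which are decreasing in the degree of `y` (and
   depend on `x` in an arbitrary way), and strong Turing determinacy (every set of reals is disjoint
   from a cone or contains a pointed perfect set) are equivalent. They are also equivalent to: in
   every game whatsoever player I has a winning strategy or player II can win at least one of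
   infinitely many boards; to the same statement with the players exchanged; and to Turing
   determinacy together with the measurability of all sets of reals with respect to pointed perfect
   sets.
4. Turing determinacy implies one half of this measurability: every set of reals which meets all
   cones meets all pointed perfect subsets of some pointed perfect set.

So the step from Turing determinacy to the axiom of determinacy is divided into two steps by these
statements: in terms of games on infinitely many boards it is the step from `BoardsI A ∨ BoardsII A`
to `WinsI A ∨ BoardsII A` to `WinsI A ∨ WinsII A`, for all payoff sets `A`. Everything is proved for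
every class `K` of sets of reals which is closed under complements and under countable Borel
operations on one set (all sets of reals; projective sets; ...).
-/

set_option autoImplicit false

namespace Pool.Agent.Results.MP_917879_lc.MonotonePayoffs

open Pool.Agent.H660
open Pool.Agent.H685R3 (WinsI WinsII Determined TuringInvariant charFn)
open Pool.Agent.Q24.BD (BoardsI BoardsII)

/-- Turing reducibility of elements of the Cantor space (Mathlib's Turing reducibility, for
characteristic functions). -/
def Reducible (x y : ℕ → Bool) : Prop := TuringReducible (charFn x) (charFn y)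

/-- The payoff set of the game in which player I wins if the sequence `x` of his moves and the
sequence `y` of the moves of player II satisfy `P x y`. -/
def Game (P : (ℕ → Bool) → (ℕ → Bool) → Prop) : Set (ℕ → Bool) :=
  {z | P (fun n => z (2 * n)) (fun n => z (2 * n + 1))}

/-- `P x y` is increasing in the Turing degree of `x`. -/
def IncreasingI (P : (ℕ → Bool) → (ℕ → Bool) → Prop) : Prop :=
  ∀ x x' y, Reducible x x' → P x y → P x' y

/-- `P x y` is decreasing in the Turing degree of `x`. -/
def DecreasingI (P : (ℕ → Bool) → (ℕ → Bool) → Prop) : Prop :=
  ∀ x x' y, Reducible x' x → P x y → P x' y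

/-- `P x y` is increasing in the Turing degree of `y`. -/
def IncreasingII (P : (ℕ → Bool) → (ℕ → Bool) → Prop) : Prop :=
  ∀ x y y', Reducible y y' → P x y → P x y'

/-- `P x y` is decreasing in the Turing degree of `y`. -/
def DecreasingII (P : (ℕ → Bool) → (ℕ → Bool) → Prop) : Prop :=
  ∀ x y y', Reducible y' y → P x y → P x y'

/-- The real which codes a sequence of reals. -/
def Merge (X : ℕ → ℕ → Bool) : ℕ → Bool := fun m => X m.unpair.1 m.unpair.2

/-- The payoff set of the game in which the players choose reals `X 0`, `X 1`, ... in turn, and
player I wins if `P x y` holds for the real `x` which codes the sequence of his moves and the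
real `y` which codes the sequence of the moves of player II. -/
def RealGame (P : (ℕ → Bool) → (ℕ → Bool) → Prop) : Set (ℕ → ℕ → Bool) :=
  {X | P (Merge fun n => X (2 * n)) (Merge fun n => X (2 * n + 1))}

/-- The player who chooses the reals `X (2 n + b)` has a strategy by which the play is always
in `Q`. -/
def ForcesReal (b : ℕ) (Q : Set (ℕ → ℕ → Bool)) : Prop :=
  ∃ s : List (ℕ → Bool) → ℕ → Bool, ∀ X : ℕ → ℕ → Bool,
    (∀ n, X (2 * n + b) = s ((List.range (2 * n + b)).map X)) → X ∈ Q

/-- The infinite branches of the set `T` of finite sequences. -/
def Branches (T : Set (List Bool)) : Set (ℕ → Bool) := {x | ∀ n, (List.range n).map x ∈ T}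

open Classical in
/-- The real which codes the set `T` of finite sequences. -/
noncomputable def TreeCode (T : Set (List Bool)) : ℕ → Bool :=
  fun n => decide (∃ s ∈ T, Encodable.encode s = n)

/-- `T` is a pointed perfect tree: it is closed under initial segments, above every element there is
a splitting, and every infinite branch computes `T`. -/
structure PointedPerfect (T : Set (List Bool)) : Prop where
  nil : [] ∈ T
  pref : ∀ s t, s ++ t ∈ T → s ∈ T
  split : ∀ s ∈ T, ∃ t, s ++ t ++ [false] ∈ T ∧ s ++ t ++ [true] ∈ T
  pointed : ∀ x ∈ Branches T, Reducible (TreeCode T) x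

/-- `A` is disjoint from a cone. -/
def MissesCone (A : Set (ℕ → Bool)) : Prop := ∃ c, ∀ x, Reducible c x → x ∉ A

/-- `A` contains a pointed perfect set. -/
def ContainsPointed (A : Set (ℕ → Bool)) : Prop := ∃ T, PointedPerfect T ∧ Branches T ⊆ A

/-- `A` meets all pointed perfect subsets of some pointed perfect set. -/
def PointedPositive (A : Set (ℕ → Bool)) : Prop :=
  ∃ T, PointedPerfect T ∧ ∀ T', PointedPerfect T' → Branches T' ⊆ Branches T →
    ∃ x ∈ Branches T', x ∈ A

/-- Every pointed perfect set contains a pointed perfect set which is contained in `A` or disjoint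
from `A`. -/
def PointedMeasurable (A : Set (ℕ → Bool)) : Prop :=
  ∀ T, PointedPerfect T → ∃ T', PointedPerfect T' ∧ Branches T' ⊆ Branches T ∧
    (Branches T' ⊆ A ∨ ∀ x ∈ Branches T', x ∉ A)

/-- The class `K` contains all sets which are obtained from one set in `K` by countable unions and
intersections of Borel preimages, with Borel sets as parameters. -/
def BorelOperations (K : Set (Set (ℕ → Bool))) : Prop :=
  ∀ A ∈ K, ∀ (C D : ℕ → ℕ → Set (ℕ → Bool)) (F : ℕ → ℕ → (ℕ → Bool) → ℕ → Bool),
    (∀ a b, MeasurableSet (C a b) ∧ MeasurableSet (D a b) ∧ Measurable (F a b)) →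
      (⋃ a, ⋂ b, (C a b ∪ (D a b ∩ F a b ⁻¹' A))) ∈ K

theorem pointedPerfect_iff {T : Set (List Bool)} : PointedPerfect T ↔ TM.PPT T :=
  ⟨fun ⟨h1, h2, h3, h4⟩ => ⟨⟨h1, h2, h3⟩, h4⟩, fun ⟨⟨h1, h2, h3⟩, h4⟩ => ⟨h1, h2, h3, h4⟩⟩

theorem contains_iff {A : Set (ℕ → Bool)} : ContainsPointed A ↔ TM.ContainsPP A :=
  exists_congr fun _ => and_congr_left fun _ => pointedPerfect_iff

theorem positive_iff {A : Set (ℕ → Bool)} : PointedPositive A ↔ TM.PPos A :=
  exists_congr fun _ => and_congr pointedPerfect_iff
    (forall_congr' fun _ => imp_congr_left pointedPerfect_iff)

theorem measurable_iff {A : Set (ℕ → Bool)} : PointedMeasurable A ↔ TM.PMeas A :=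
  forall_congr' fun _ => imp_congr pointedPerfect_iff
    (exists_congr fun _ => and_congr_left fun _ => pointedPerfect_iff)

theorem result :
    -- (1) outright determined games
    (∀ P, DecreasingI P ∨ IncreasingII P → Determined (Game P)) ∧
    ∀ K : Set (Set (ℕ → Bool)), BorelOperations K → (∀ A ∈ K, Aᶜ ∈ K) →
      -- (2) Turing determinacy
      ((∀ A ∈ K, TuringInvariant A → Determined A) ↔
        ∀ P, Game P ∈ K → IncreasingI P → DecreasingII P → Determined (Game P)) ∧
      ((∀ A ∈ K, TuringInvariant A → Determined A) →
        ∀ P, Game P ∈ K → IncreasingI P → DecreasingII P →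
          (ForcesReal 0 (RealGame P) ∨ ForcesReal 1 (RealGame P)ᶜ) ∧
          (ForcesReal 0 (RealGame P) ↔ WinsI (Game P)) ∧
          (ForcesReal 1 (RealGame P)ᶜ ↔ WinsII (Game P))) ∧
      -- (3) strong Turing determinacy
      List.TFAE [
        ∀ A ∈ K, MissesCone A ∨ ContainsPointed A,
        ∀ A ∈ K, WinsI A ∨ BoardsII A,
        ∀ A ∈ K, BoardsI A ∨ WinsII A,
        ∀ P, Game P ∈ K → IncreasingI P → Determined (Game P),
        ∀ P, Game P ∈ K → DecreasingII P → Determined (Game P),
        (∀ A ∈ K, TuringInvariant A → Determined A) ∧ ∀ A ∈ K, PointedMeasurable A] ∧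
      -- (4) the half which follows from Turing determinacy
      ((∀ A ∈ K, TuringInvariant A → Determined A) →
        ∀ A ∈ K, MissesCone A ∨ PointedPositive A) := by
  refine ⟨fun P h => TM.determined_of h, fun K hK hc => ⟨TM.td_iff hK, fun h P hP h1 h2 => ?_, ?_,
    fun h A hA => ?_⟩⟩
  · have h3 := h _ (TM.diag_mem hK hP) (TM.diag_invariant h1 h2)
    obtain ⟨h4, h5⟩ := TM.real_iff h1 h2 h3
    have h6 : WinsI (Game P) ↔ WinsI {x | P x x} := (TM.diag_winsI h1 h2).trans
      (TM.ti_winsI (TM.diag_invariant h1 h2)).symm
    have h7 : WinsII (Game P) ↔ WinsII {x | P x x} := (TM.diag_winsII h1 h2).trans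
      (TM.ti_winsII (TM.diag_invariant h1 h2)).symm
    exact ⟨h3.imp h4.2 h5.2, h4.trans h6.symm, h5.trans h7.symm⟩
  · simp only [contains_iff, measurable_iff]
    exact TM.std_tfae hK hc
  · rw [positive_iff]
    exact TM.misses_or_ppos (h _ (TM.sat_mem hK hA) (TM.inv_sat A))

end Pool.Agent.Results.MP_917879_lc.MonotonePayoffs
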