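import Pool.Agent.H640.CA.Ord

set_option autoImplicit false

/-!
Turing determinacy implies automatic order continuity: every exhaustive additive map from a monotone
σ-complete partially ordered group (for instance a σ-Dedekind complete vector lattice, or the
selfadjoint part of a von Neumann algebra) to a commutative topological group is σ-order continuous;
in particular all positive, and all order bounded, real valued additive functionals are σ-order
continuous. (With the axiom of choice there are counterexamples: Banach limits, singular functionals.)
Stated as an explicit reduction to the determinacy of Turing invariant sets.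
-/

namespace Pool.Agent.Results.MP_917879_lc.OrderedGroups

open Pool.Agent.H685R3 Filter Topology

/-- `x` and `y` have the same Turing degree (Mathlib's Turing reducibility, for characteristic
functions). -/
def SameDegree (x y : ℕ → Bool) : Prop :=
  TuringReducible (charFn x) (charFn y) ∧ TuringReducible (charFn y) (charFn x)

/-- The set of all `x` such that for some `x'` of the same Turing degree the set `V` contains
infinitely many members of the sequence `Ψ x'`. -/
def Saturation (V : Set (ℕ → Bool)) (Ψ : (ℕ → Bool) → ℕ → ℕ → Bool) : Set (ℕ → Bool) :=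
  {x | ∃ x', SameDegree x' x ∧ ∃ᶠ n in atTop, Ψ x' n ∈ V}

section

variable {E : Type*} [AddCommGroup E] [PartialOrder E]

/-- Increasing sequences in `E` which are bounded above have least upper bounds. -/
def MonotoneComplete (E : Type*) [PartialOrder E] : Prop :=
  ∀ u : ℕ → E, Monotone u → BddAbove (Set.range u) → ∃ s, IsLUB (Set.range u) s

/-- The terms of the series are nonnegative and its partial sums are bounded above. -/
def BoundedSeries (a : ℕ → E) : Prop := (∀ n, 0 ≤ a n) ∧ ∃ e, ∀ n, ∑ i ∈ Finset.range n, a i ≤ e

/-- `s` is the sum of the series of all `a n` with `n ∈ c`: the least upper bound of the partial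
sums. -/
def SubSum (a : ℕ → E) (c : Set ℕ) (s : E) : Prop :=
  IsLUB (Set.range fun n => ∑ i ∈ Finset.range n, c.indicator a i) s

variable {G : Type*} [AddCommGroup G] [TopologicalSpace G]

/-- The values of `f` at the terms of bounded series tend to zero. -/
def Exhaustive (f : E →+ G) : Prop :=
  ∀ a : ℕ → E, BoundedSeries a → Tendsto (fun n => f (a n)) atTop (𝓝 0)

/-- The set of all sets `x` of natural numbers such that for every `N` there is a set `c` of
elements of `x` above `N` for which the value of `f` at the sum of all `a n` with `n ∈ c` is outside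
of `V`. -/
def Large (f : E →+ G) (V : Set G) (a : ℕ → E) : Set (ℕ → Bool) :=
  {x | ∀ N, ∃ c : Set ℕ, (∀ n ∈ c, N ≤ n ∧ x n = true) ∧ ∃ s, SubSum a c s ∧ f s ∉ V}

/-- For all neighbourhoods `V` of zero and all bounded series `a` the saturation of the set
`Large f V a` under the map `Φ σ` has the property `P`, for all `σ`. -/
def Attached (P : Set (ℕ → Bool) → Prop) (Φ : List Bool → (ℕ → Bool) → ℕ → ℕ → Bool)
    (f : E →+ G) : Prop :=
  ∀ V ∈ 𝓝 (0 : G), ∀ a : ℕ → E, BoundedSeries a → ∀ σ : List Bool,
    P (Saturation (Large f V a) (Φ σ))

/-- The values of `f` at the members of a decreasing sequence with greatest lower bound zero tend to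
zero. -/
def OrderContinuous (f : E →+ G) : Prop :=
  ∀ x : ℕ → E, Antitone x → IsGLB (Set.range x) 0 → Tendsto (fun n => f (x n)) atTop (𝓝 0)

end

/-- `f` is bounded on order intervals `[0, e]`; for instance positive functionals are. -/
def OrderBounded {E : Type*} [AddCommGroup E] [PartialOrder E] (f : E →+ ℝ) : Prop :=
  ∀ e : E, ∃ K : ℝ, ∀ y, 0 ≤ y → y ≤ e → |f y| ≤ K

/-- There are Borel maps `Φ σ` (one for every finite binary sequence `σ`) from the Cantor space to
sequences of points of the Cantor space such that for every partially ordered commutative group `E`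
in which bounded increasing sequences have least upper bounds and every additive map `f` from `E` to
a commutative topological group `G` the sets attached to `f` are Turing invariant, and if all of
them are determined and `f` is exhaustive, then `f` is σ-order continuous; every additive map from
`E` to the reals which is bounded on order intervals is exhaustive. -/
theorem result :
    ∃ Φ : List Bool → (ℕ → Bool) → ℕ → ℕ → Bool, (∀ σ, Measurable (Φ σ)) ∧
      ∀ (E : Type*) [AddCommGroup E] [PartialOrder E] [IsOrderedAddMonoid E], MonotoneComplete E →
        (∀ (G : Type*) [AddCommGroup G] [TopologicalSpace G] [IsTopologicalAddGroup G]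
          (f : E →+ G), Attached TuringInvariant Φ f ∧
            (Attached Determined Φ f → Exhaustive f → OrderContinuous f)) ∧
        ∀ f : E →+ ℝ, OrderBounded f → Exhaustive f := by
  refine ⟨Pool.Agent.W885.TD.cc, Pool.Agent.W885.TD.measurable_cc, fun E _ _ _ hE => ?_⟩
  have key : ∀ (V : Set (ℕ → Bool)) (σ : List Bool), Saturation V (Pool.Agent.W885.TD.cc σ) =
      Pool.Agent.W885.TD.sat V (Pool.Agent.W885.TD.cc σ) := by
    intro V σ
    ext x
    exact ⟨fun ⟨x', h, h'⟩ => ⟨x', h.1, h.2, h'⟩, fun ⟨x', h1, h2, h'⟩ => ⟨x', ⟨h1, h2⟩, h'⟩⟩
  refine ⟨fun G _ _ _ f => ⟨fun V _ a _ σ => ?_, fun hf he => ?_⟩, fun f hf =>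
    Pool.Agent.H640.CA.exh_of_bounded hf⟩
  · rw [key]
    exact Pool.Agent.W885.TD.sat_invariant _ _
  · intro x hx hx0
    refine Pool.Agent.H640.CA.order_cont hE he (fun V hV a ha => ?_) hx hx0
    refine Pool.Agent.W885.TD.baire_of_determined ?_ fun σ => ?_
    · intro y z hy hyz N
      obtain ⟨c, hc, h⟩ := hy N
      exact ⟨c, fun n hn => ⟨(hc n hn).1, hyz n (hc n hn).2⟩, h⟩
    · have h := hf V hV a ha σ
      rw [key] at h
      exact h

end Pool.Agent.Results.MP_917879_lc.OrderedGroups
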