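import Pool.Agent.H640.CA.App

set_option autoImplicit false

/-!
Turing determinacy implies that every ideal `I` of a Boolean algebra `B` with countable least upper
bounds is closed under countable least upper bounds, or there are a Cantor set of elements of `B`
outside of `I` with pairwise meets in `I`. In particular every ideal with a ccc quotient is a
σ-ideal, and every homomorphism from `B` to a Boolean algebra without antichains of size continuum
preserves all countable least upper bounds. (With the axiom of choice, nonprincipal ultrafilters on
the natural numbers are counterexamples.) Stated as an explicit reduction to the determinacy of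
Turing invariant sets.
-/

namespace Pool.Agent.Results.MP_917879_lc.SaturatedIdeals

open Pool.Agent.H685R3 Filter Topology

/-- `x` and `y` have the same Turing degree (Mathlib's Turing reducibility, for characteristic
functions). -/
def SameDegree (x y : ℕ → Bool) : Prop :=
  TuringReducible (charFn x) (charFn y) ∧ TuringReducible (charFn y) (charFn x)

/-- The set of all `x` such that for some `x'` of the same Turing degree the set `V` contains
infinitely many members of the sequence `Ψ x'`. -/
def Saturation (V : Set (ℕ → Bool)) (Ψ : (ℕ → Bool) → ℕ → ℕ → Bool) : Set (ℕ → Bool) :=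
  {x | ∃ x', SameDegree x' x ∧ ∃ᶠ n in atTop, Ψ x' n ∈ V}

/-- Every sequence in the Boolean algebra has a least upper bound. -/
def SigmaComplete (B : Type*) [BooleanAlgebra B] : Prop :=
  ∀ a : ℕ → B, ∃ s, IsLUB (Set.range a) s

/-- The set of all sets `x` of natural numbers such that for every `N` some element of the Boolean
algebra outside of `W` is below all upper bounds of the `a n` with `n ≥ N` and `n ∈ x`. -/
def Large {B : Type*} [BooleanAlgebra B] (W : Set B) (a : ℕ → B) : Set (ℕ → Bool) :=
  {x | ∀ N, ∃ c ∉ W, ∀ u, (∀ n ≥ N, x n = true → a n ≤ u) → c ≤ u}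

/-- The saturations of the sets `Large W a`, for all sequences `a`, under the maps `Φ σ` have the
property `P`. -/
def Attached (P : Set (ℕ → Bool) → Prop) (Φ : List Bool → (ℕ → Bool) → ℕ → ℕ → Bool)
    {B : Type*} [BooleanAlgebra B] (W : Set B) : Prop :=
  ∀ (a : ℕ → B) (σ : List Bool), P (Saturation (Large W a) (Φ σ))

/-- `I` is closed under countable least upper bounds. -/
def SigmaIdeal {B : Type*} [BooleanAlgebra B] (I : Order.Ideal B) : Prop :=
  ∀ (a : ℕ → B) (s : B), (∀ n, a n ∈ I) → IsLUB (Set.range a) s → s ∈ I

/-- There are elements outside of `I`, parametrized by the Cantor space, with pairwise meets in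
`I`. -/
def BigFamily {B : Type*} [BooleanAlgebra B] (I : Order.Ideal B) : Prop :=
  ∃ h : (ℕ → Bool) → B, (∀ x, h x ∉ I) ∧ ∀ x y, x ≠ y → h x ⊓ h y ∈ I

/-- `f` preserves all countable least upper bounds. -/
def Sigma {B C : Type*} [BooleanAlgebra B] [BooleanAlgebra C] (f : B → C) : Prop :=
  ∀ (a : ℕ → B) (s : B), IsLUB (Set.range a) s → IsLUB (Set.range fun n => f (a n)) (f s)

/-- There are nonzero pairwise disjoint elements parametrized by the Cantor space. -/
def BigAntichain (C : Type*) [BooleanAlgebra C] : Prop :=
  ∃ h : (ℕ → Bool) → C, (∀ x, h x ≠ ⊥) ∧ ∀ x y, x ≠ y → Disjoint (h x) (h y)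

/-- There are Borel maps `Φ σ` (one for every finite binary sequence `σ`) from the Cantor space to
sequences of points of the Cantor space such that for every Boolean algebra `B` in which all
sequences have least upper bounds and every ideal `I` of `B` the sets attached to `I` are Turing
invariant, and if all of them are determined, then `I` is closed under countable least upper bounds
or there are elements outside of `I`, parametrized by the Cantor space, with pairwise meets in `I`;
in particular, if for a homomorphism `f` from `B` to a Boolean algebra `C` the sets attached to the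
ideals `{b | f b ≤ u}` are determined, then `f` preserves all countable least upper bounds or `C`
has an antichain parametrized by the Cantor space. -/
theorem result :
    ∃ Φ : List Bool → (ℕ → Bool) → ℕ → ℕ → Bool, (∀ σ, Measurable (Φ σ)) ∧
      ∀ (B : Type*) [BooleanAlgebra B], SigmaComplete B →
        (∀ I : Order.Ideal B, Attached TuringInvariant Φ (I : Set B) ∧
          (Attached Determined Φ (I : Set B) → SigmaIdeal I ∨ BigFamily I)) ∧
        (∀ (C : Type*) [BooleanAlgebra C] (f : BoundedLatticeHom B C),
          (∀ u : C, Attached Determined Φ {b | f b ≤ u}) → Sigma f ∨ BigAntichain C) := by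
  refine ⟨Pool.Agent.W885.TD.cc, Pool.Agent.W885.TD.measurable_cc, fun B _ hB => ?_⟩
  have key : ∀ (V : Set (ℕ → Bool)) (σ : List Bool), Saturation V (Pool.Agent.W885.TD.cc σ) =
      Pool.Agent.W885.TD.sat V (Pool.Agent.W885.TD.cc σ) := by
    intro V σ
    ext x
    exact ⟨fun ⟨x', h, h'⟩ => ⟨x', h.1, h.2, h'⟩, fun ⟨x', h1, h2, h'⟩ => ⟨x', ⟨h1, h2⟩, h'⟩⟩
  have hbaire : ∀ W : Set B, Attached Determined Pool.Agent.W885.TD.cc W → ∀ a : ℕ → B,
      BaireMeasurableSet (Pool.Agent.H640.CA.Large W a) := by
    intro W hW a
    refine Pool.Agent.W885.TD.baire_of_determined (Pool.Agent.H640.CA.up_large W a) fun σ => ?_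
    have h := hW a σ
    rw [key] at h
    exact h
  refine ⟨fun I => ⟨fun a σ => ?_, fun hf => ?_⟩, fun C _ f hf => ?_⟩
  · rw [key]
    exact Pool.Agent.W885.TD.sat_invariant _ _
  · exact Pool.Agent.H640.CA.ideal_sigma hB I fun a => hbaire _ hf a
  · exact Pool.Agent.H640.CA.hom_sigma hB f fun u a => hbaire _ (hf u) a

end Pool.Agent.Results.MP_917879_lc.SaturatedIdeals
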